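import Pool.Agent.Lib_MP_e73b0e.Main

/-!
# Regular groups of prime exponent with few eigenvalues

`A` is a group of exponent `p` (`p` prime) that acts faithfully and `K`-linearly on a `K`-vector space `V` of any dimension, such that no element
`a ≠ 1` fixes a nonzero vector, and `X` is a set of generators of `A`. If one element `c ≠ 1` of `A` has a minimal polynomial of degree at most `m`
and all commutators of powers of `c` and of powers of `g c g⁻¹`, `g ∈ X`, have minimal polynomials of degree at most `n`, where
`p > (2 n + 1) ^ (2 (m - 1))` and the characteristic of `K` is `0` or larger than `(2 ^ n * p) ^ (p - 1)`, then `A` is cyclic.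
-/

set_option autoImplicit false

namespace Pool.Agent.Results.MP_e73b0e_al.FewEigenvalues

theorem result :
    ∀ (K : Type) [Field K] (V : Type) [AddCommGroup V] [Module K V] (A : Type) [Group A] [DistribMulAction A V]
      [FaithfulSMul A V] [SMulCommClass A K V] (p m n : ℕ),
      p.Prime →
      Monoid.exponent A = p →
      0 < m → 0 < n →
      (2 * n + 1) ^ (2 * (m - 1)) < p →
      (ringChar K = 0 ∨ (2 ^ n * p) ^ (p - 1) < ringChar K) →
      (∀ a : A, a ≠ 1 → ∀ v : V, a • v = v → v = 0) →
      ∀ X : Set A, Subgroup.closure X = ⊤ →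
      ∀ c : A, c ≠ 1 →
        (∃ f : Polynomial K, f ≠ 0 ∧ f.natDegree ≤ m ∧
          Polynomial.aeval (DistribMulAction.toModuleEnd K V c) f = 0) →
        (∀ g ∈ X, ∀ k l : ℕ, ∃ f : Polynomial K, f ≠ 0 ∧ f.natDegree ≤ n ∧
          Polynomial.aeval (DistribMulAction.toModuleEnd K V
            (c ^ k * (g * c ^ l * g⁻¹) * (c ^ k)⁻¹ * (g * c ^ l * g⁻¹)⁻¹)) f = 0) →
        IsCyclic A := by
  intro K _ V _ _ A _ _ _ _ p m n hp hA hm hn hpm hK hreg X hX c hc hcm hcn
  exact Pool.Agent.FewEig.main hp hm hn hpm hK V A hA hreg c hc hcm X hX hcn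

end Pool.Agent.Results.MP_e73b0e_al.FewEigenvalues
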