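import Pool.Agent.Lib_MP_e73b0e_gp.Final

/-!
# At most three eigenvalues, in geometric progression

Let `p` be an odd prime and `A` a group which acts faithfully and `K`-linearly on a `K`-vector space `V` (`K` any field, `V` of any dimension),
generated by an element `c ≠ 1` and a set `S`. Suppose that `c`, and each of the elements `x * c ^ j` (`x ∈ S`, `0 ≤ j < p`) which is not `1`, has
order `p` and fixes only the zero vector. If all eigenvalues of `c` (in an extension field `L` of `K`) are among three elements `α, β, γ` of `L`
with `α γ = β ^ 2`, then `A` is cyclic.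
-/

set_option autoImplicit false

namespace Pool.Agent.Results.MP_e73b0e_al.GeometricProgression

theorem result :
    ∀ (K : Type) [Field K] (V : Type) [AddCommGroup V] [Module K V] (A : Type) [Group A] [DistribMulAction A V]
      [FaithfulSMul A V] [SMulCommClass A K V] (p : ℕ),
      p.Prime → p ≠ 2 →
      ∀ c : A, c ≠ 1 → c ^ p = 1 → (∀ v : V, c • v = v → v = 0) →
      ∀ S : Set A, Subgroup.closure (insert c S) = ⊤ →
        (∀ x ∈ S, ∀ j < p, x * c ^ j ≠ 1 →
          (x * c ^ j) ^ p = 1 ∧ ∀ v : V, (x * c ^ j) • v = v → v = 0) →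
      ∀ (L : Type) [Field L] [Algebra K L] (f : Polynomial K) (α β γ : L),
        Polynomial.aeval (DistribMulAction.toModuleEnd K V c) f = 0 →
        f.map (algebraMap K L) ∣
          (Polynomial.X - Polynomial.C α) * (Polynomial.X - Polynomial.C β) * (Polynomial.X - Polynomial.C γ) →
        α * γ = β ^ 2 →
        IsCyclic A := by
  intro K _ V _ _ A _ _ _ _ p hp hp2 c hc1 hcp hcf S hS hx L _ _ f α β γ hf hdvd hg
  exact Pool.Agent.GeoProg.cyclic L hp hp2 c hc1 hcp hcf S hS hx f α β γ hf hdvd hg

end Pool.Agent.Results.MP_e73b0e_al.GeometricProgression
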