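import Pool.Agent.Lib_MP_e73b0e_five.Grp

/-!
# Groups of exponent five acting without fixed points on abelian groups

Main theorem. Let `x`, `y` be automorphisms of an abelian group `V`. If each of the six automorphisms
`y, x, x y, x y², x y³, x y⁴` has fifth power one and fixes only zero, then `V = 0`.

For commuting `x`, `y` (a group `C_5 × C_5`) this is classical: the six subgroups of order five cover the group. Here
`x` and `y` do not commute and nothing is assumed on the group which they generate. It follows that a group of
exponent five which acts without fixed points on a non-zero abelian group is cyclic of order five: choose `y ≠ 1`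
and `x` not in the subgroup generated by `y`. So the question of the problem has a positive answer for `p = 5`, for all
abelian groups `V` (in particular for torsion-free ones).

Proof. For `g` of order five without fixed points, `1 + g + g² + g³ + g⁴ = 0` on `V`, and `V` has no
`5`-torsion. After a base change we may assume that `V` is a vector space over a field `K` of characteristic not `5` with a
primitive fifth root of unity `ζ`. Let `e_c` (`c` modulo `5`) be the projections to the eigenspaces of `y`,
`e_0 = 0`, and `X_{cd} = e_c x e_d`, `Y_{cd} = e_c x⁻¹ e_d`. The five relations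
`1 + g + g² + g⁻¹ + g⁻² = 0`, `g = x y^j`, are by Fourier inversion in `j` equivalent to
`δ_{n0} δ_{cd} e_c + δ_{nd} X_{cd} + δ_{n,-c} Y_{cd} + X_{c,n-d} X_{n-d,d} + Y_{c,-n-c} Y_{-n-c,d} = 0` (all `c, d, n`).
Put `A = X_{11}`, `B = Y_{11}`, `Z = X_{12} Y_{21}`. The relations give `Z = Y_{12} X_{21}`, `Z² = Z`, `B A B = B`,
`A B² = B Z = Z B` and, with `x x⁻¹ = 1`, `2 (A B + Z + B A) = e_1`. Multiplication by `B` gives `4 A B² = -B`, then
`5 A B² = 0`, so `B = 0`, `2 Z = e_1`, `4 Z = e_1`, `e_1 = 0`. By symmetry all `e_c` are zero and `V = 0`.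
-/

set_option autoImplicit false

open Pool.Agent.FixFive

namespace Pool.Agent.Results.MP_e73b0e_al.SixAutomorphisms

/-- (1) A group `A` acts on an abelian group `V`, and `x, y` are elements of `A`. If the six elements
`y, x, x y, x y², x y³, x y⁴` have fifth power one and fix only zero, then `V = 0`. (2) A group of exponent five which acts faithfully on an abelian group, such that
non-identity elements fix only zero, is cyclic. -/
theorem result :
    (∀ (V : Type) [AddCommGroup V] (A : Type) [Group A] [DistribMulAction A V] (x y : A),
      (∀ g ∈ ({y, x, x * y, x * y ^ 2, x * y ^ 3, x * y ^ 4} : Set A),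
        g ^ 5 = 1 ∧ ∀ v : V, g • v = v → v = 0) →
      ∀ v : V, v = 0) ∧
    (∀ (V : Type) [AddCommGroup V] (A : Type) [Group A] [DistribMulAction A V] [FaithfulSMul A V],
      Monoid.exponent A = 5 →
      (∀ a : A, a ≠ 1 → ∀ v : V, a • v = v → v = 0) →
      IsCyclic A) := by
  have key : ∀ (V G : Type) [AddCommGroup V] [Group G] [DistribMulAction G V] (g : G),
      g ^ 5 = 1 → (∀ v : V, g • v = v → v = 0) → Reg V g := by
    intro V G _ _ _ g h1 h2
    refine ⟨fun v => ?_, h2⟩
    rw [← mul_smul, ← mul_smul, ← mul_smul, ← mul_smul]
    have : g * g * g * g * g = g ^ 5 := by simp only [pow_succ, pow_zero, one_mul]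
    rw [this, h1, one_smul]
  constructor
  · intro V _ A _ _ x y h v
    refine vanish x y ?_ (fun j hj => ?_) v
    · exact key V A y (h y (by simp)).1 (h y (by simp)).2
    · have hm : x * y ^ j ∈ ({y, x, x * y, x * y ^ 2, x * y ^ 3, x * y ^ 4} : Set A) := by
        interval_cases j <;> simp
      exact key V A _ (h _ hm).1 (h _ hm).2
  · intro V _ A _ _ _ hexp hreg
    have hpow : ∀ a : A, a ^ 5 = 1 := fun a => by
      rw [← hexp]; exact Monoid.pow_exponent_eq_one a
    obtain ⟨y, hy⟩ : ∃ y : A, y ≠ 1 := by
      by_contra hcon
      push Not at hcon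
      have : Subsingleton A := ⟨fun a b => by rw [hcon a, hcon b]⟩
      have h1 : Monoid.exponent A = 1 := Monoid.exp_eq_one_iff.2 this
      omega
    refine ⟨⟨y, fun x => ?_⟩⟩
    by_contra hx
    have hx' : ∀ j : ℕ, x * y ^ j ≠ 1 := by
      intro j hj
      apply hx
      rw [eq_inv_of_mul_eq_one_left hj]
      exact inv_mem (Subgroup.pow_mem _ (Subgroup.mem_zpowers y) j)
    have hV : ∀ v : V, v = 0 := vanish x y (key V A y (hpow y) (hreg y hy))
      fun j _ => key V A _ (hpow _) (hreg _ (hx' j))
    apply hy
    exact FaithfulSMul.eq_of_smul_eq_smul (α := V) fun v => by rw [hV (y • v), hV ((1 : A) • v)]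

end Pool.Agent.Results.MP_e73b0e_al.SixAutomorphisms
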